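import Pool.Agent.N718.DC.Stm

/-!
# DC/COMB: an inequality for products (for helper718)
-/

set_option autoImplicit false

namespace Pool.Agent.N383.DC

open Pool.Agent.N718.DC

theorem prod_bd (a κ : ℝ) (ha : 0 ≤ a) (hκ : 0 ≤ κ) : ∀ (m : ℕ) (X Z : Fin m → ℝ),
    (∀ i, 0 ≤ Z i ∧ Z i ≤ 1) → (∀ i, |X i - a * Z i| ≤ a * κ) →
    |∏ i, X i - a ^ m * ∏ i, Z i| ≤ a ^ m * ((1 + κ) ^ m - 1) ∧ 0 ≤ ∏ i, Z i ∧ ∏ i, Z i ≤ 1 := by
  intro m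
  induction m with
  | zero =>
    intro X Z _ _
    simp
  | succ m ih =>
    intro X Z hZ hX
    obtain ⟨h1, h2, h3⟩ := ih (fun i => X i.succ) (fun i => Z i.succ) (fun i => hZ _) fun i => hX _
    rw [Fin.prod_univ_succ, Fin.prod_univ_succ]
    obtain ⟨P, hP⟩ : ∃ P, P = ∏ i : Fin m, X i.succ := ⟨_, rfl⟩
    obtain ⟨Q, hQ⟩ : ∃ Q, Q = ∏ i : Fin m, Z i.succ := ⟨_, rfl⟩
    rw [← hP, ← hQ] at h1
    rw [← hQ] at h2 h3
    rw [← hP, ← hQ]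
    obtain ⟨z0, z1⟩ := hZ 0
    have hx := hX 0
    have ham : 0 ≤ a ^ m := pow_nonneg ha m
    refine ⟨?_, mul_nonneg z0 h2, mul_le_one₀ z1 h2 h3⟩
    have hPb : |P| ≤ a ^ m * (1 + κ) ^ m := by
      have e1 : P = (P - a ^ m * Q) + a ^ m * Q := by ring
      have e2 : |a ^ m * Q| ≤ a ^ m := by
        rw [abs_of_nonneg (mul_nonneg ham h2)]
        exact mul_le_of_le_one_right ham h3
      calc |P| = |(P - a ^ m * Q) + a ^ m * Q| := by rw [← e1]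
        _ ≤ |P - a ^ m * Q| + |a ^ m * Q| := abs_add_le _ _
        _ ≤ a ^ m * ((1 + κ) ^ m - 1) + a ^ m := add_le_add h1 e2
        _ = a ^ m * (1 + κ) ^ m := by ring
    have e3 : X 0 * P - a ^ (m + 1) * (Z 0 * Q) =
        (X 0 - a * Z 0) * P + a * Z 0 * (P - a ^ m * Q) := by ring
    rw [e3]
    have haz : |a * Z 0| ≤ a := by
      rw [abs_of_nonneg (mul_nonneg ha z0)]
      exact mul_le_of_le_one_right ha z1
    calc |(X 0 - a * Z 0) * P + a * Z 0 * (P - a ^ m * Q)|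
        ≤ |(X 0 - a * Z 0) * P| + |a * Z 0 * (P - a ^ m * Q)| := abs_add_le _ _
      _ = |X 0 - a * Z 0| * |P| + |a * Z 0| * |P - a ^ m * Q| := by rw [abs_mul, abs_mul]
      _ ≤ (a * κ) * (a ^ m * (1 + κ) ^ m) + a * (a ^ m * ((1 + κ) ^ m - 1)) :=
          add_le_add (mul_le_mul hx hPb (abs_nonneg _) (mul_nonneg ha hκ))
            (mul_le_mul haz h1 (abs_nonneg _) ha)
      _ = a ^ (m + 1) * ((1 + κ) ^ (m + 1) - 1) := by ring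

/-- Part COMB. -/
theorem comb_ : S_COMB := by
  intro m X Y Y' Z w κ hw hκ hZ hX hY hY'
  have hw0 : 0 ≤ w := by linarith
  have h1 := (prod_bd (w ^ 2) κ (sq_nonneg w) hκ m X Z hZ hX).1
  have h2 := (prod_bd w κ hw0 hκ m Y Z hZ hY).1
  have h3 := (prod_bd w κ hw0 hκ m Y' Z hZ hY').1
  rw [← pow_mul] at h1
  have hwm : 0 ≤ w ^ m := pow_nonneg hw0 m
  have e1 : w ^ (2 * m) = w ^ m * w ^ m := by rw [two_mul, pow_add]
  have e2 : ∏ i, X i - w ^ m * ∏ i, Y i - w ^ m * ∏ i, Y' i + w ^ (2 * m) * ∏ i, Z i =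
      (∏ i, X i - w ^ (2 * m) * ∏ i, Z i) - w ^ m * (∏ i, Y i - w ^ m * ∏ i, Z i) -
        w ^ m * (∏ i, Y' i - w ^ m * ∏ i, Z i) := by
    rw [e1]
    ring
  have h2' : |w ^ m * (∏ i, Y i - w ^ m * ∏ i, Z i)| ≤ w ^ (2 * m) * ((1 + κ) ^ m - 1) := by
    rw [abs_mul, abs_of_nonneg hwm, e1, mul_assoc]
    exact mul_le_mul_of_nonneg_left h2 hwm
  have h3' : |w ^ m * (∏ i, Y' i - w ^ m * ∏ i, Z i)| ≤ w ^ (2 * m) * ((1 + κ) ^ m - 1) := by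
    rw [abs_mul, abs_of_nonneg hwm, e1, mul_assoc]
    exact mul_le_mul_of_nonneg_left h3 hwm
  rw [e2]
  have a1 := abs_sub (∏ i, X i - w ^ (2 * m) * ∏ i, Z i - w ^ m * (∏ i, Y i - w ^ m * ∏ i, Z i))
    (w ^ m * (∏ i, Y' i - w ^ m * ∏ i, Z i))
  have a2 := abs_sub (∏ i, X i - w ^ (2 * m) * ∏ i, Z i) (w ^ m * (∏ i, Y i - w ^ m * ∏ i, Z i))
  linarith

end Pool.Agent.N383.DC
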